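import Pool.Agent.W945.Lc.Stm

/-!
# Project LC, subtask WTS: the weights of blocks
-/

namespace Pool.Agent.W107.Lc.WTS

open Finset Pool.Agent.W945.Pw Pool.Agent.W945.Lc

theorem y_pow_ge (a : ℕ) : 1 + (a : ℝ) / 10 ^ 8 ≤ y ^ a := by
  have h := one_add_mul_le_pow (a := (1 / 10 ^ 8 : ℝ)) (by norm_num) a
  unfold y
  calc 1 + (a : ℝ) / 10 ^ 8 = 1 + (a : ℝ) * (1 / 10 ^ 8) := by ring
    _ ≤ _ := h

theorem key (hM : MGF.Stm) {n : ℕ} (D : DT n) (a₀ a₁ a : ℕ)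
    (h1 : 200 * D.depth + max a₀ a₁ ≤ 5000)
    (h2 : 200 * D.cost + a₀ * (1 - D.pr) + a₁ * D.pr + 1 / 4 ≤ (a : ℝ)) :
    D.wt (y ^ 200) (y ^ a₀) (y ^ a₁) ≤ y ^ a := by
  refine (hM n D a₀ a₁ h1).trans (le_trans ?_ (y_pow_ge a))
  have : (0 : ℝ) < 10 ^ 8 := by positivity
  gcongr

theorem low (hT : TAB.Stm) {n : ℕ} (D : DT n) (l : ℕ) (hI : Inv D l) (h1 : 1 ≤ l) (h2 : l ≤ 12) :
    ∃ m : ℝ, m ≤ D.pr ∧ m ≤ 1 - D.pr ∧ 200 * D.cost + 1 / 4 ≤ 92 * ((l : ℝ) + 1) + 184 * m := by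
  obtain ⟨-, -, -, k, hk, hk1, hk2, hc⟩ := hI
  obtain ⟨-, -, -, hd, -⟩ := hT
  have h := hd l (by omega) h1 k hk
  have hkk : (min k (63 - k) : ℕ) ≤ k := min_le_left _ _
  have hkk' : (min k (63 - k) : ℕ) + k ≤ 63 := by
    have := min_le_right k (63 - k)
    omega
  have hr : (64 : ℝ) * (tab l k : ℝ) + 80 ≤ 29440 * ((l : ℝ) + 1) + 920 * ((min k (63 - k) : ℕ) : ℝ) := by
    exact_mod_cast h
  have e1 : ((min k (63 - k) : ℕ) : ℝ) ≤ k := by exact_mod_cast hkk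
  have e2 : ((min k (63 - k) : ℕ) : ℝ) + k ≤ 63 := by exact_mod_cast hkk'
  refine ⟨((min k (63 - k) : ℕ) : ℝ) / 64, by linarith, by linarith, by linarith⟩

theorem high (hT : TAB.Stm) {n : ℕ} (D : DT n) (l : ℕ) (hI : Inv D l) (h1 : 13 ≤ l) (h2 : l ≤ 24) :
    ∃ m : ℝ, m ≤ D.pr ∧ m ≤ 1 - D.pr ∧ 200 * D.cost + 1 / 4 ≤ 92 * (l : ℝ) + 92 * m := by
  obtain ⟨-, -, -, k, hk, hk1, hk2, hc⟩ := hI
  obtain ⟨-, -, -, -, he⟩ := hT
  have h := he l (by omega) h1 k hk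
  have hkk : (min k (63 - k) : ℕ) ≤ k := min_le_left _ _
  have hkk' : (min k (63 - k) : ℕ) + k ≤ 63 := by
    have := min_le_right k (63 - k)
    omega
  have hr : (64 : ℝ) * (tab l k : ℝ) + 80 ≤ 29440 * (l : ℝ) + 460 * ((min k (63 - k) : ℕ) : ℝ) := by
    exact_mod_cast h
  have e1 : ((min k (63 - k) : ℕ) : ℝ) ≤ k := by exact_mod_cast hkk
  have e2 : ((min k (63 - k) : ℕ) : ℝ) + k ≤ 63 := by exact_mod_cast hkk'
  refine ⟨((min k (63 - k) : ℕ) : ℝ) / 64, by linarith, by linarith, by linarith⟩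

theorem main : WTS.Stm := by
  intro hT hM _ n D l hI
  have hdep : D.depth ≤ l := hI.2.1
  refine ⟨?_, ?_, ?_⟩
  · intro c₁ c₂ h1 h2
    obtain ⟨m, hm1, hm2, hm⟩ := low hT D l hI h1 h2
    have hx : ∀ a₀ a₁ : ℕ, max a₀ a₁ ≤ 184 →
        (a₀ : ℝ) * (1 - D.pr) + a₁ * D.pr ≤ 184 - 184 * m →
        D.wt (y ^ 200) (y ^ a₀) (y ^ a₁) ≤ y ^ (92 * (l + 3)) := by
      intro a₀ a₁ hmax ha
      refine key hM D a₀ a₁ _ (by omega) ?_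
      push_cast
      linarith
    cases c₁ <;> cases c₂ <;> simp only [kap] <;> refine hx _ _ (by simp) ?_ <;> simp <;> linarith
  · intro c₁ h1 h2
    obtain ⟨m, hm1, hm2, hm⟩ := high hT D l hI h1 h2
    have hx : ∀ a₀ a₁ : ℕ, max a₀ a₁ ≤ 92 →
        (a₀ : ℝ) * (1 - D.pr) + a₁ * D.pr ≤ 92 - 92 * m →
        D.wt (y ^ 200) (y ^ a₀) (y ^ a₁) ≤ y ^ (92 * (l + 1)) := by
      intro a₀ a₁ hmax ha
      refine key hM D a₀ a₁ _ (by omega) ?_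
      push_cast
      linarith
    cases c₁ <;> refine hx _ _ (by simp) ?_ <;> simp <;> linarith
  · intro h1 h2
    obtain ⟨m, hm1, hm2, hm⟩ := low hT D l hI h1 h2
    have hh := key hM D 0 0 (92 * (l + 2)) (by simp; omega) (by push_cast; linarith)
    simpa using hh

end Pool.Agent.W107.Lc.WTS
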